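import Mathlib
import Pool.Agent.H.MP_0067de_an.C

open MeasureTheory Set

namespace Pool.Agent.Results.MP_0067de_an.No

noncomputable def maxOp (φ f : ℝ → ℝ) (x : ℝ) : ℝ :=
  ⨆ t : Ioi (0 : ℝ), ∫ y, ((t : ℝ)⁻¹ * φ (y / t)) * |f (x - y)|

theorem result : ∃ φ : ℝ → ℝ, (∀ x, 0 ≤ φ x) ∧ Integrable φ ∧ ∫ x, φ x = 1 ∧
    ContDiff ℝ (⊤ : ℕ∞) φ ∧ (∀ x, φ (-x) = φ x) ∧ BddAbove (range φ) ∧
    ∀ C : ℝ, ∃ f : ℝ → ℝ, BoundedVariationOn f univ ∧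
      ENNReal.ofReal C * eVariationOn f univ < eVariationOn (maxOp φ f) univ := by
  obtain ⟨φ, h1, h2, h3, h4, h5, h6, h7⟩ := Pool.Agent.H.MP_0067de_an.main
  refine ⟨φ, h1, h2, h3, h4, h5, h6, fun C => ?_⟩
  obtain ⟨f, hf, hM⟩ := h7 (|C| * 4 + 1)
  refine ⟨f, ne_top_of_le_ne_top (by norm_num) hf, lt_of_lt_of_le ?_ hM⟩
  calc ENNReal.ofReal C * eVariationOn f univ ≤ ENNReal.ofReal |C| * ENNReal.ofReal 4 := by
        gcongr
        · exact le_abs_self C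
        · simpa using hf
    _ = ENNReal.ofReal (|C| * 4) := (ENNReal.ofReal_mul (abs_nonneg C)).symm
    _ < _ := (ENNReal.ofReal_lt_ofReal_iff (by positivity)).2 (by linarith)

end Pool.Agent.Results.MP_0067de_an.No
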